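import Pool.Agent.LibAC34.Stmt

/-!
The rank of the kernel `det (Mᵀ N) * det ((M | z)ᵀ (N | w))`: definitions.
-/

open Pool.Agent.LibAC34

namespace Pool.Agent.LibMul34

variable {r D : ℕ}

/-- the number `det (Mᵀ N) * det ((M | z)ᵀ (N | w))` for `p = (N, w)` and `q = (M, z)` -/
def kf (p q : Matrix (Fin r) (Fin D) ℤ × (Fin r → ℤ)) : ℤ :=
  (q.1.transpose * p.1).det * ((bd q.1 q.2).transpose * bd p.1 p.2).det

/-- the dimension of the space of polynomial functions `(M, z) ↦ kf (N, w) (M, z)` spanned by all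
`(N, w)` -/
noncomputable def mul (r D : ℕ) : ℕ :=
  Module.finrank ℚ (Submodule.span ℚ (Set.range
    fun p q : Matrix (Fin r) (Fin D) ℤ × (Fin r → ℤ) => (kf p q : ℚ)))

end Pool.Agent.LibMul34
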