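import Pool.Agent.LibMul34.Defs

/-!
[MUL1] the dimension of the kernel of the raising operator.
-/

open scoped Classical

namespace Pool.Agent.LibMul34.Sl2

variable {r : ℕ}

theorem mem_tg_self (x : Fin r) (J : Finset (Fin r)) : x ∈ tg x J ↔ x ∉ J := by
  unfold tg
  by_cases h : x ∈ J
  · simp [h]
  · simp [h]

theorem mem_tg_ne {x y : Fin r} (h : x ≠ y) (J : Finset (Fin r)) : x ∈ tg y J ↔ x ∈ J := by
  unfold tg
  by_cases hy : y ∈ J
  · simp [hy, h]
  · simp [hy, h]

theorem tg_tg (x : Fin r) (J : Finset (Fin r)) : tg x (tg x J) = J := by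
  ext y
  by_cases h : y = x
  · subst h
    rw [mem_tg_self, mem_tg_self, not_not]
  · rw [mem_tg_ne h, mem_tg_ne h]

theorem tg_comm (x y : Fin r) (J : Finset (Fin r)) : tg x (tg y J) = tg y (tg x J) := by
  by_cases hxy : x = y
  · rw [hxy]
  ext z
  by_cases h : z = x
  · subst h
    rw [mem_tg_self, mem_tg_ne hxy, mem_tg_ne hxy, mem_tg_self]
  · by_cases h' : z = y
    · subst h'
      rw [mem_tg_ne h, mem_tg_self, mem_tg_self, mem_tg_ne h]
    · rw [mem_tg_ne h, mem_tg_ne h', mem_tg_ne h', mem_tg_ne h]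

theorem card_tg_lt {x y : Fin r} (J : Finset (Fin r)) (h : y < x) :
    ((tg y J).filter (· < x)).card + 1 = (J.filter (· < x)).card ∨
      ((tg y J).filter (· < x)).card = (J.filter (· < x)).card + 1 := by
  unfold tg
  by_cases hy : y ∈ J
  · left
    rw [if_pos hy, Finset.filter_erase]
    exact Finset.card_erase_add_one (Finset.mem_filter.2 ⟨hy, h⟩)
  · right
    rw [if_neg hy, Finset.filter_insert, if_pos h, Finset.card_insert_of_notMem]
    intro h1
    exact hy (Finset.mem_filter.1 h1).1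

theorem sg_tg (x y : Fin r) (J : Finset (Fin r)) :
    sg x (tg y J) = if y < x then -sg x J else sg x J := by
  split_ifs with h
  · unfold sg
    rcases card_tg_lt J h with h1 | h1
    · rw [← h1, pow_succ]
      ring
    · rw [h1, pow_succ]
      ring
  · unfold sg
    congr 2
    ext z
    rw [Finset.mem_filter, Finset.mem_filter]
    refine and_congr_left fun hz => mem_tg_ne ?_ J
    rintro rfl
    exact h hz

theorem sg_tg_tg (x y : Fin r) (J I : Finset (Fin r)) :
    sg x (tg y J) * sg x (tg y I) = sg x J * sg x I := by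
  rw [sg_tg, sg_tg]
  split_ifs <;> ring

theorem sg_sq (x : Fin r) (J : Finset (Fin r)) : sg x J * sg x J = 1 := by
  unfold sg
  rw [← mul_pow]
  norm_num

theorem ex_apply (x : Fin r) (f : Pr r → ℚ) (p : Pr r) : ex x f p =
    if x ∈ p.1 ∧ x ∉ p.2 then sg x p.1 * sg x p.2 * f (tg x p.1, tg x p.2) else 0 := rfl

theorem fx_apply (x : Fin r) (f : Pr r → ℚ) (p : Pr r) : fx x f p =
    if x ∉ p.1 ∧ x ∈ p.2 then sg x p.1 * sg x p.2 * f (tg x p.1, tg x p.2) else 0 := rfl

theorem ex_fx {x y : Fin r} (h : x ≠ y) (f : Pr r → ℚ) : ex x (fx y f) = fx y (ex x f) := by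
  funext p
  rw [ex_apply, fx_apply, fx_apply, ex_apply]
  simp only [mem_tg_ne h, mem_tg_ne h.symm]
  by_cases h1 : x ∈ p.1 ∧ x ∉ p.2
  · by_cases h2 : y ∉ p.1 ∧ y ∈ p.2
    · rw [if_pos h1, if_pos h2, if_pos h2, if_pos h1, sg_tg_tg, sg_tg_tg, tg_comm y x, tg_comm y x]
      ring
    · rw [if_pos h1, if_neg h2, if_neg h2, mul_zero]
  · rw [if_neg h1, if_neg h1]
    simp

theorem ex_fx_self (x : Fin r) (f : Pr r → ℚ) (p : Pr r) :
    ex x (fx x f) p = if x ∈ p.1 ∧ x ∉ p.2 then f p else 0 := by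
  rw [ex_apply, fx_apply]
  simp only [mem_tg_self, not_not, tg_tg]
  by_cases h1 : x ∈ p.1 ∧ x ∉ p.2
  · rw [if_pos h1, if_pos h1, if_pos h1, sg_tg_tg]
    have h2 : sg x p.1 * sg x p.2 * (sg x p.1 * sg x p.2 * f p) =
        (sg x p.1 * sg x p.1) * (sg x p.2 * sg x p.2) * f p := by ring
    rw [h2, sg_sq, sg_sq, one_mul, one_mul]
  · rw [if_neg h1, if_neg h1]

theorem fx_ex_self (x : Fin r) (f : Pr r → ℚ) (p : Pr r) :
    fx x (ex x f) p = if x ∉ p.1 ∧ x ∈ p.2 then f p else 0 := by
  rw [fx_apply, ex_apply]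
  simp only [mem_tg_self, not_not, tg_tg]
  by_cases h1 : x ∉ p.1 ∧ x ∈ p.2
  · rw [if_pos h1, if_pos h1, if_pos h1, sg_tg_tg]
    have h2 : sg x p.1 * sg x p.2 * (sg x p.1 * sg x p.2 * f p) =
        (sg x p.1 * sg x p.1) * (sg x p.2 * sg x p.2) * f p := by ring
    rw [h2, sg_sq, sg_sq, one_mul, one_mul]
  · rw [if_neg h1, if_neg h1]

theorem opE_apply (f : Pr r → ℚ) (p : Pr r) : opE r f p = ∑ x, ex x f p := by
  unfold opE
  rw [LinearMap.sum_apply, Finset.sum_apply]

theorem opF_apply (f : Pr r → ℚ) (p : Pr r) : opF r f p = ∑ x, fx x f p := by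
  unfold opF
  rw [LinearMap.sum_apply, Finset.sum_apply]

/-- the commutator -/
theorem comm (f : Pr r → ℚ) (p : Pr r) :
    opE r (opF r f) p = opF r (opE r f) p + ((p.1.card : ℚ) - p.2.card) * f p := by
  have h1 : opE r (opF r f) = ∑ x, ∑ y, ex x (fx y f) := by
    unfold opE opF
    rw [LinearMap.sum_apply]
    refine Finset.sum_congr rfl fun x _ => ?_
    rw [LinearMap.sum_apply, map_sum]
  have h2 : opF r (opE r f) = ∑ x, ∑ y, fx y (ex x f) := by
    unfold opE opF
    rw [LinearMap.sum_apply, Finset.sum_comm]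
    refine Finset.sum_congr rfl fun y _ => ?_
    rw [LinearMap.sum_apply, map_sum]
  have h3 : opE r (opF r f) - opF r (opE r f) =
      ∑ x, (ex x (fx x f) - fx x (ex x f)) := by
    rw [h1, h2, ← Finset.sum_sub_distrib]
    refine Finset.sum_congr rfl fun x _ => ?_
    rw [← Finset.sum_sub_distrib, Finset.sum_eq_single x]
    · intro y _ hy
      rw [ex_fx (Ne.symm hy), sub_self]
    · intro h
      exact absurd (Finset.mem_univ x) h
  have h4 : opE r (opF r f) p - opF r (opE r f) p =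
      ∑ x, ((if x ∈ p.1 ∧ x ∉ p.2 then f p else 0) - if x ∉ p.1 ∧ x ∈ p.2 then f p else 0) := by
    have := congrFun h3 p
    rw [Pi.sub_apply, Finset.sum_apply] at this
    rw [this]
    refine Finset.sum_congr rfl fun x _ => ?_
    rw [Pi.sub_apply, ex_fx_self, fx_ex_self]
  have h5 : ∀ x, ((if x ∈ p.1 ∧ x ∉ p.2 then f p else 0) -
      if x ∉ p.1 ∧ x ∈ p.2 then f p else 0) =
      (if x ∈ p.1 then f p else 0) - if x ∈ p.2 then f p else 0 := by
    intro x
    by_cases h6 : x ∈ p.1 <;> by_cases h7 : x ∈ p.2 <;> simp [h6, h7]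
  rw [Finset.sum_congr rfl fun x _ => h5 x, Finset.sum_sub_distrib] at h4
  simp only [Finset.sum_ite_mem, Finset.univ_inter, Finset.sum_const, nsmul_eq_mul] at h4
  rw [sub_eq_iff_eq_add] at h4
  rw [h4]
  ring

/-- the transpose -/
theorem adj (f g : Pr r → ℚ) : ∑ p, opF r f p * g p = ∑ p, f p * opE r g p := by
  simp only [opF_apply, opE_apply, Finset.sum_mul, Finset.mul_sum]
  rw [Finset.sum_comm]
  conv_rhs => rw [Finset.sum_comm]
  refine Finset.sum_congr rfl fun x _ => ?_
  let t : Pr r ≃ Pr r :=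
    { toFun := fun p => (tg x p.1, tg x p.2)
      invFun := fun p => (tg x p.1, tg x p.2)
      left_inv := fun p => by
        show (tg x (tg x p.1), tg x (tg x p.2)) = p
        rw [tg_tg, tg_tg]
      right_inv := fun p => by
        show (tg x (tg x p.1), tg x (tg x p.2)) = p
        rw [tg_tg, tg_tg] }
  rw [← Equiv.sum_comp t]
  refine Finset.sum_congr rfl fun p _ => ?_
  show fx x f (tg x p.1, tg x p.2) * g (tg x p.1, tg x p.2) = _
  rw [fx_apply, ex_apply]
  simp only [mem_tg_self, not_not, tg_tg, sg_tg_tg]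
  split_ifs
  · ring
  · ring

theorem card_tg_erase {x : Fin r} {J : Finset (Fin r)} (h : x ∈ J) :
    (tg x J).card + 1 = J.card := by
  unfold tg
  rw [if_pos h]
  exact Finset.card_erase_add_one h

theorem card_tg_insert {x : Fin r} {J : Finset (Fin r)} (h : x ∉ J) :
    (tg x J).card = J.card + 1 := by
  unfold tg
  rw [if_neg h]
  exact Finset.card_insert_of_notMem h

theorem opE_mem {a b : ℕ} {f : Pr r → ℚ} (hf : f ∈ Wt r a (b + 1)) : opE r f ∈ Wt r (a + 1) b := by
  unfold opE
  rw [LinearMap.sum_apply]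
  refine sum_mem fun x _ => ?_
  intro p hp
  rw [ex_apply] at hp
  by_cases h1 : x ∈ p.1 ∧ x ∉ p.2
  · rw [if_pos h1] at hp
    have h2 := hf _ (right_ne_zero_of_mul hp)
    simp only at h2
    have h3 := card_tg_erase h1.1
    have h4 := card_tg_insert h1.2
    omega
  · rw [if_neg h1] at hp
    exact absurd rfl hp

theorem opE_zero {a : ℕ} {f : Pr r → ℚ} (hf : f ∈ Wt r a 0) : opE r f = 0 := by
  unfold opE
  rw [LinearMap.sum_apply]
  refine Finset.sum_eq_zero fun x _ => ?_
  funext p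
  rw [ex_apply]
  by_cases h1 : x ∈ p.1 ∧ x ∉ p.2
  · rw [if_pos h1]
    by_cases h0 : f (tg x p.1, tg x p.2) = 0
    · rw [h0, mul_zero]
      rfl
    · have h2 := hf _ h0
      simp only at h2
      have h4 := card_tg_insert h1.2
      omega
  · rw [if_neg h1]
    rfl

theorem opF_mem {a b : ℕ} {f : Pr r → ℚ} (hf : f ∈ Wt r (a + 1) b) : opF r f ∈ Wt r a (b + 1) := by
  unfold opF
  rw [LinearMap.sum_apply]
  refine sum_mem fun x _ => ?_
  intro p hp
  rw [fx_apply] at hp
  by_cases h1 : x ∉ p.1 ∧ x ∈ p.2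
  · rw [if_pos h1] at hp
    have h2 := hf _ (right_ne_zero_of_mul hp)
    simp only at h2
    have h3 := card_tg_erase h1.2
    have h4 := card_tg_insert h1.1
    omega
  · rw [if_neg h1] at hp
    exact absurd rfl hp

theorem finrank_Wt (a b : ℕ) : Module.finrank ℚ (Wt r a b) = r.choose a * r.choose b := by
  let S : Type := {p : Pr r // p.1.card = a ∧ p.2.card = b}
  let e : Wt r a b ≃ₗ[ℚ] (S → ℚ) :=
    { toFun := fun f s => f.1 s.1
      map_add' := fun _ _ => rfl
      map_smul' := fun _ _ => rfl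
      invFun := fun g => ⟨fun p => if h : p.1.card = a ∧ p.2.card = b then g ⟨p, h⟩ else 0, by
        intro p hp
        by_contra h
        exact hp (dif_neg h)⟩
      left_inv := by
        intro f
        apply Subtype.ext
        funext p
        show (if h : p.1.card = a ∧ p.2.card = b then f.1 p else 0) = f.1 p
        split_ifs with h
        · rfl
        · by_contra h0
          exact h (f.2 p (Ne.symm h0))
      right_inv := by
        intro g
        funext s
        show (if h : s.1.1.card = a ∧ s.1.2.card = b then g ⟨s.1, h⟩ else 0) = g s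
        rw [dif_pos s.2] }
  rw [e.finrank_eq, Module.finrank_fintype_fun_eq_card]
  let e2 : S ≃ {J : Finset (Fin r) // J.card = a} × {J : Finset (Fin r) // J.card = b} :=
    { toFun := fun s => (⟨s.1.1, s.2.1⟩, ⟨s.1.2, s.2.2⟩)
      invFun := fun q => ⟨(q.1.1, q.2.1), q.1.2, q.2.2⟩
      left_inv := fun _ => rfl
      right_inv := fun _ => rfl }
  rw [Fintype.card_congr e2, Fintype.card_prod, Fintype.card_finset_len, Fintype.card_finset_len,
    Fintype.card_fin]

theorem inj {a b : ℕ} (hab : b ≤ a) {f : Pr r → ℚ} (hf : f ∈ Wt r (a + 1) b)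
    (h0 : opE r (opF r f) = 0) : f = 0 := by
  have h1 : ∑ p, opF r f p * opF r f p = 0 := by
    rw [adj, h0]
    simp
  have h2 : ∑ p, f p * opE r (opF r f) p = (∑ p, opE r f p * opE r f p) +
      ((a : ℚ) + 1 - b) * ∑ p, f p * f p := by
    have h3 : ∀ p, f p * opE r (opF r f) p = f p * opF r (opE r f) p +
        ((a : ℚ) + 1 - b) * (f p * f p) := by
      intro p
      rw [comm]
      by_cases h4 : f p = 0
      · rw [h4]
        ring
      · have h5 := hf p h4
        rw [h5.1, h5.2]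
        push_cast
        ring
    rw [Finset.sum_congr rfl fun p _ => h3 p, Finset.sum_add_distrib, ← Finset.mul_sum]
    congr 1
    have h6 := adj (opE r f) f
    rw [← h6]
    refine Finset.sum_congr rfl fun p _ => ?_
    ring
  rw [← adj, h1] at h2
  have h3 : (0 : ℚ) ≤ ∑ p, opE r f p * opE r f p :=
    Finset.sum_nonneg fun p _ => mul_self_nonneg _
  have h4 : (0 : ℚ) ≤ ∑ p, f p * f p := Finset.sum_nonneg fun p _ => mul_self_nonneg _
  have h5 : (0 : ℚ) < (a : ℚ) + 1 - b := by
    have : (b : ℚ) ≤ a := by exact_mod_cast hab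
    linarith
  have h6 : ∑ p, f p * f p = 0 := by
    by_contra h7
    have h8 : (0 : ℚ) < ∑ p, f p * f p := lt_of_le_of_ne h4 (Ne.symm h7)
    have h9 := mul_pos h5 h8
    linarith
  funext p
  have h7 := (Finset.sum_eq_zero_iff_of_nonneg fun p _ => mul_self_nonneg (f p)).1 h6 p
    (Finset.mem_univ p)
  exact mul_self_eq_zero.1 h7

theorem map_opE {a b : ℕ} (hab : b ≤ a) : (Wt r a (b + 1)).map (opE r) = Wt r (a + 1) b := by
  apply le_antisymm
  · rintro _ ⟨f, hf, rfl⟩
    exact opE_mem hf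
  · intro g hg
    let T : Wt r (a + 1) b →ₗ[ℚ] Wt r (a + 1) b :=
      ((opE r).comp (opF r)).restrict fun f hf => opE_mem (opF_mem hf)
    have hT : Function.Injective T := by
      rw [← LinearMap.ker_eq_bot, LinearMap.ker_eq_bot']
      intro f hf
      apply Subtype.ext
      exact inj hab f.2 (congrArg Subtype.val hf)
    obtain ⟨f, hf⟩ := LinearMap.surjective_of_injective hT ⟨g, hg⟩
    exact ⟨opF r f, opF_mem f.2, congrArg Subtype.val hf⟩

theorem finrank_ker {a b : ℕ} (hab : b ≤ a) :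
    Module.finrank ℚ ↥(LinearMap.ker (opE r) ⊓ Wt r a (b + 1)) + r.choose (a + 1) * r.choose b =
      r.choose a * r.choose (b + 1) := by
  have h1 := LinearMap.finrank_range_add_finrank_ker ((opE r).domRestrict (Wt r a (b + 1)))
  have h2 : LinearMap.range ((opE r).domRestrict (Wt r a (b + 1))) = Wt r (a + 1) b := by
    rw [LinearMap.range_domRestrict, map_opE hab]
  have h3 : Module.finrank ℚ (LinearMap.ker ((opE r).domRestrict (Wt r a (b + 1)))) =
      Module.finrank ℚ ↥(LinearMap.ker (opE r) ⊓ Wt r a (b + 1)) := by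
    refine LinearEquiv.finrank_eq ?_
    exact
      { toFun := fun f => ⟨f.1.1, f.2, f.1.2⟩
        map_add' := fun _ _ => rfl
        map_smul' := fun _ _ => rfl
        invFun := fun f => ⟨⟨f.1, f.2.2⟩, f.2.1⟩
        left_inv := fun _ => rfl
        right_inv := fun _ => rfl }
  rw [h2, h3, finrank_Wt, finrank_Wt] at h1
  omega

theorem finrank_ker0 (a : ℕ) :
    Module.finrank ℚ ↥(LinearMap.ker (opE r) ⊓ Wt r a 0) = r.choose a := by
  have h1 : LinearMap.ker (opE r) ⊓ Wt r a 0 = Wt r a 0 :=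
    inf_eq_right.2 fun f hf => opE_zero hf
  rw [h1, finrank_Wt, Nat.choose_zero_right, mul_one]

end Pool.Agent.LibMul34.Sl2
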