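import Pool.Agent.LibMul34.Pol
import Pool.Agent.LibMul34.Sl2
import Pool.Agent.LibAC84C.CB
import Pool.Agent.LibMul34.KDefs

/-!
The closed formula for the rank.
-/

open Pool.Agent.LibAC34
open scoped Classical

namespace Pool.Agent.LibMul34

variable {r D : ℕ}

theorem sum_sub {a : ℕ} (g : Finset (Fin r) → ℚ) (hg : ∀ J, J.card ≠ a → g J = 0) :
    ∑ J, g J = ∑ J : {J : Finset (Fin r) // J.card = a}, g J.1 := by
  rw [← Finset.sum_subtype (Finset.univ.filter fun J : Finset (Fin r) => J.card = a)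
    (by intro J; simp) g]
  rw [← Finset.sum_filter_add_sum_filter_not Finset.univ (fun J : Finset (Fin r) => J.card = a)]
  rw [Finset.sum_eq_zero (s := Finset.univ.filter fun J : Finset (Fin r) => ¬ J.card = a), add_zero]
  intro J hJ
  exact hg J (Finset.mem_filter.1 hJ).2

theorem cb {a : ℕ} (n m : Fin a → Fin r → ℚ) :
    (Matrix.of fun i j => ∑ x, m i x * n j x).det = ∑ J, mn J m * mn J n := by
  have h1 := LibAC84C.cauchyBinet (R := ℚ) (Matrix.of fun x i => m i x : Matrix (Fin r) (Fin a) ℚ)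
    (Matrix.of fun x i => n i x)
  have h2 : (Matrix.of fun x i => m i x : Matrix (Fin r) (Fin a) ℚ).transpose *
      (Matrix.of fun x i => n i x) = Matrix.of fun i j => ∑ x, m i x * n j x := by
    ext i j
    simp [Matrix.mul_apply]
  rw [← h2, h1, sum_sub (a := a) (fun J => mn J m * mn J n) (fun J hJ => by
    rw [mn_zero hJ, zero_mul])]
  refine Finset.sum_congr rfl fun J _ => ?_
  rw [mn_of J.2, mn_of J.2]
  rfl

/-- the vectors -/
def nv (p : Matrix (Fin r) (Fin D) ℤ × (Fin r → ℤ)) : Fin (D + 1) → Fin r → ℚ :=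
  Fin.snoc (α := fun _ => Fin r → ℚ) (fun c x => (p.1 x c : ℚ)) (fun x => (p.2 x : ℚ))

/-- the indices of the columns -/
def ix (D : ℕ) : Fin D ⊕ Unit ≃ Fin (D + 1) :=
  (Equiv.sumCongr (Equiv.refl _) (Equiv.ofUnique Unit (Fin 1))).trans finSumFinEquiv

theorem ix_inl (c : Fin D) : ix D (Sum.inl c) = c.castSucc := rfl

theorem ix_inr : ix D (Sum.inr ()) = Fin.last D := by
  simp [ix, Fin.ext_iff]

/-- the vector of the products of minors -/
noncomputable def Tv (p : Matrix (Fin r) (Fin D) ℤ × (Fin r → ℤ)) : Pr r → ℚ :=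
  fun P => mn P.1 (nv p) * mn P.2 (fun c : Fin D => nv p c.castSucc)

theorem nv_castSucc (p : Matrix (Fin r) (Fin D) ℤ × (Fin r → ℤ)) (c : Fin D) (x : Fin r) :
    nv p c.castSucc x = (p.1 x c : ℚ) := by
  simp [nv]

theorem nv_last (p : Matrix (Fin r) (Fin D) ℤ × (Fin r → ℤ)) (x : Fin r) :
    nv p (Fin.last D) x = (p.2 x : ℚ) := by
  simp [nv]

theorem nv_ix (p : Matrix (Fin r) (Fin D) ℤ × (Fin r → ℤ)) (i : Fin D ⊕ Unit) (x : Fin r) :
    nv p (ix D i) x = (bd p.1 p.2 x i : ℚ) := by
  rcases i with c | ⟨⟩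
  · rw [ix_inl, nv_castSucc]
    rfl
  · rw [ix_inr, nv_last]
    rfl

theorem kf_eq (p q : Matrix (Fin r) (Fin D) ℤ × (Fin r → ℤ)) :
    (kf p q : ℚ) = ∑ P, Tv p P * Tv q P := by
  have h1 : ((q.1.transpose * p.1).det : ℚ) = ∑ I, mn I (fun c : Fin D => nv q c.castSucc) *
      mn I (fun c : Fin D => nv p c.castSucc) := by
    rw [← cb, Int.cast_det]
    congr 1
    ext i j
    simp [Matrix.mul_apply, nv_castSucc]
  have h2 : (((bd q.1 q.2).transpose * bd p.1 p.2).det : ℚ) = ∑ J, mn J (nv q) * mn J (nv p) := by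
    rw [← cb, Int.cast_det, ← Matrix.det_submatrix_equiv_self (ix D)]
    congr 1
    ext i j
    simp [Matrix.mul_apply, nv_ix]
  unfold kf
  rw [Int.cast_mul, h1, h2, Fintype.sum_prod_type, mul_comm, Finset.sum_mul]
  refine Finset.sum_congr rfl fun J _ => ?_
  rw [Finset.mul_sum]
  refine Finset.sum_congr rfl fun I _ => ?_
  unfold Tv
  ring

theorem Tv_mem (p : Matrix (Fin r) (Fin D) ℤ × (Fin r → ℤ)) :
    Tv p ∈ LinearMap.ker (opE r) ⊓ Wt r (D + 1) D := by
  refine ⟨?_, ?_⟩
  · exact LinearMap.mem_ker.2 (opE_T (nv p) _ fun c => ⟨c.castSucc, rfl⟩)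
  · intro P hP
    constructor
    · by_contra h
      exact hP (by unfold Tv; rw [mn_zero h, zero_mul])
    · by_contra h
      exact hP (by unfold Tv; rw [mn_zero h, mul_zero])

theorem mn_smul {a : ℕ} (J : Finset (Fin r)) (n : Fin a → Fin r → ℚ) (c : ℚ) :
    mn J (fun i => c • n i) = c ^ a * mn J n := by
  by_cases h : J.card = a
  · rw [mn_of h, mn_of h]
    have h1 : (Matrix.of fun i j => (c • n j) (J.orderEmbOfFin h i)) =
        c • (Matrix.of fun i j => n j (J.orderEmbOfFin h i) : Matrix (Fin a) (Fin a) ℚ) := rfl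
    rw [h1, Matrix.det_smul, Fintype.card_fin]
  · rw [mn_zero h, mn_zero h, mul_zero]

theorem zero_of_orth {z : Pr r → ℚ} (hz : z ∈ LinearMap.ker (opE r) ⊓ Wt r (D + 1) D)
    (h : ∀ p : Matrix (Fin r) (Fin D) ℤ × (Fin r → ℤ), ∑ P, z P * Tv p P = 0) : z = 0 := by
  have h0 : ∀ n : Fin (D + 1) → Fin r → ℚ, Gz z n (fun c : Fin D => n c.castSucc) = 0 := by
    intro n
    obtain ⟨b, hb⟩ := IsLocalization.exist_integer_multiples_of_finite (nonZeroDivisors ℤ)
      (fun t : Fin (D + 1) × Fin r => n t.1 t.2)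
    choose f hf using hb
    have hb0 : ((b : ℤ) : ℚ) ≠ 0 := Int.cast_ne_zero.2 (nonZeroDivisors.ne_zero b.2)
    let p : Matrix (Fin r) (Fin D) ℤ × (Fin r → ℤ) :=
      (Matrix.of fun x c => f (c.castSucc, x), fun x => f (Fin.last D, x))
    have h1 : nv p = fun i => ((b : ℤ) : ℚ) • n i := by
      funext j x
      have h2 : nv p j x = (f (j, x) : ℚ) := by
        refine Fin.lastCases ?_ (fun c => ?_) j
        · rw [nv_last]
        · rw [nv_castSucc]
          rfl
      rw [h2]
      have h3 := hf (j, x)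
      simp only [algebraMap_int_eq, eq_intCast] at h3
      rw [h3]
      simp [zsmul_eq_mul]
    have h2 := h p
    have h3 : ∀ P : Pr r, z P * Tv p P = ((b : ℤ) : ℚ) ^ (D + 1) * ((b : ℤ) : ℚ) ^ D *
        (z P * mn P.1 n * mn P.2 (fun c : Fin D => n c.castSucc)) := by
      intro P
      unfold Tv
      rw [h1, mn_smul]
      have h4 := mn_smul P.2 (fun c : Fin D => n c.castSucc) ((b : ℤ) : ℚ)
      rw [h4]
      ring
    simp only [h3] at h2
    rw [← Finset.mul_sum] at h2
    rcases mul_eq_zero.1 h2 with h5 | h5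
    · exact absurd h5 (mul_ne_zero (pow_ne_zero _ hb0) (pow_ne_zero _ hb0))
    · exact h5
  exact eq_zero_of_Gz hz.2 fun n m => pol z (LinearMap.mem_ker.1 hz.1) h0 Finset.univ n m
    fun c hc => absurd (Finset.mem_univ c) hc

/-- the scalar product with the vectors `Tv q` -/
noncomputable def Phi (r D : ℕ) :
    (Pr r → ℚ) →ₗ[ℚ] (Matrix (Fin r) (Fin D) ℤ × (Fin r → ℤ) → ℚ) where
  toFun z q := ∑ P, z P * Tv q P
  map_add' z z' := by
    funext q
    rw [Pi.add_apply, ← Finset.sum_add_distrib]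
    exact Finset.sum_congr rfl fun P _ => by rw [Pi.add_apply, add_mul]
  map_smul' c z := by
    funext q
    rw [Pi.smul_apply, smul_eq_mul, Finset.mul_sum]
    exact Finset.sum_congr rfl fun P _ => by
      rw [Pi.smul_apply, smul_eq_mul, RingHom.id_apply, mul_assoc]

/-- the scalar product -/
noncomputable def ip (r : ℕ) : (Pr r → ℚ) →ₗ[ℚ] (Pr r → ℚ) →ₗ[ℚ] ℚ :=
  LinearMap.mk₂ ℚ (fun z u => ∑ P, z P * u P)
    (fun z z' u => by
      rw [← Finset.sum_add_distrib]
      exact Finset.sum_congr rfl fun P _ => by rw [Pi.add_apply, add_mul])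
    (fun c z u => by
      rw [smul_eq_mul, Finset.mul_sum]
      exact Finset.sum_congr rfl fun P _ => by rw [Pi.smul_apply, smul_eq_mul, mul_assoc])
    (fun z u u' => by
      rw [← Finset.sum_add_distrib]
      exact Finset.sum_congr rfl fun P _ => by rw [Pi.add_apply, mul_add])
    (fun c z u => by
      rw [smul_eq_mul, Finset.mul_sum]
      exact Finset.sum_congr rfl fun P _ => by
        rw [Pi.smul_apply, smul_eq_mul]
        ring)

theorem mul_eq_finrank (r D : ℕ) :
    mul r D = Module.finrank ℚ ↥(LinearMap.ker (opE r) ⊓ Wt r (D + 1) D) := by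
  let U : Submodule ℚ (Pr r → ℚ) := Submodule.span ℚ (Set.range (Tv (r := r) (D := D)))
  let K : Submodule ℚ (Pr r → ℚ) := LinearMap.ker (opE r) ⊓ Wt r (D + 1) D
  have hUK : U ≤ K := by
    rw [Submodule.span_le]
    rintro _ ⟨p, rfl⟩
    exact Tv_mem p
  have h1 : Module.finrank ℚ K ≤ Module.finrank ℚ U := by
    let ψ : K →ₗ[ℚ] Module.Dual ℚ U := (LinearMap.lcomp ℚ ℚ U.subtype) ∘ₗ (ip r) ∘ₗ K.subtype
    have hψ : Function.Injective ψ := by
      rw [← LinearMap.ker_eq_bot, LinearMap.ker_eq_bot']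
      intro z hz
      apply Subtype.ext
      refine zero_of_orth z.2 fun p => ?_
      have h2 := LinearMap.congr_fun hz ⟨Tv p, Submodule.subset_span ⟨p, rfl⟩⟩
      exact h2
    have h3 := LinearMap.finrank_le_finrank_of_injective hψ
    rwa [Subspace.dual_finrank_eq] at h3
  have h2 : Module.finrank ℚ U = Module.finrank ℚ K :=
    le_antisymm (Submodule.finrank_mono hUK) h1
  have h3 : Submodule.span ℚ (Set.range
      fun p q : Matrix (Fin r) (Fin D) ℤ × (Fin r → ℤ) => (kf p q : ℚ)) =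
      LinearMap.range ((Phi r D).domRestrict U) := by
    have h4 : (fun p q : Matrix (Fin r) (Fin D) ℤ × (Fin r → ℤ) => (kf p q : ℚ)) =
        (Phi r D) ∘ Tv := by
      funext p q
      exact kf_eq p q
    rw [h4, Set.range_comp, ← Submodule.map_span, LinearMap.range_domRestrict]
  unfold mul
  rw [h3, LinearMap.finrank_range_of_inj, h2]
  rw [← LinearMap.ker_eq_bot, LinearMap.ker_eq_bot']
  intro z hz
  apply Subtype.ext
  exact zero_of_orth (hUK z.2) fun p => congrFun hz p

theorem mul_zero' (r : ℕ) : mul r 0 = r := by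
  rw [mul_eq_finrank, Sl2.finrank_ker0, Nat.choose_one_right]

theorem mul_succ (r D : ℕ) : mul r (D + 1) + r.choose (D + 3) * r.choose D =
    r.choose (D + 1) * r.choose (D + 2) := by
  rw [mul_eq_finrank, mul_comm (r.choose (D + 1))]
  exact Sl2.finrank_ker (by omega)

/-- the closed formula for `1 ≤ D` -/
theorem mul_pos_eq (r D : ℕ) (hD : 0 < D) : mul r D =
    r.choose D * r.choose (D + 1) - r.choose (D - 1) * r.choose (D + 2) := by
  obtain ⟨D, rfl⟩ : ∃ D', D = D' + 1 := ⟨D - 1, by omega⟩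
  have h := mul_succ r D
  rw [Nat.add_sub_cancel, mul_comm (r.choose D)]
  change _ = r.choose (D + 1) * r.choose (D + 2) - r.choose (D + 3) * r.choose D
  omega

/-- the closed formula for all `D` -/
theorem mul_eq (r D : ℕ) : mul r D =
    r.choose D * r.choose (D + 1) - r.choose (r + 1 - D) * r.choose (D + 2) := by
  rcases Nat.eq_zero_or_pos D with rfl | hD
  · rw [mul_zero']
    simp
  · rw [mul_pos_eq r D hD]
    rcases Nat.lt_or_ge r (D - 1) with h | h
    · rw [Nat.choose_eq_zero_of_lt (show r < D + 2 by omega), mul_zero, mul_zero]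
    · have h1 : r.choose (r + 1 - D) = r.choose (D - 1) := by
        rw [← Nat.choose_symm h]
        congr 1
        omega
      rw [h1]

/-- the closed formula without subtraction -/
theorem mul_eq' (r D : ℕ) :
    (D + 2) * mul r D = 2 * ((r + 1).choose D * r.choose (D + 1)) := by
  rcases Nat.eq_zero_or_pos D with rfl | hD
  · rw [mul_zero']
    simp
  · obtain ⟨D, rfl⟩ : ∃ D', D = D' + 1 := ⟨D - 1, by omega⟩
    have h := mul_succ r D
    have h1 := Nat.choose_succ_right_eq r (D + 2)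
    have h2 := Nat.choose_succ_right_eq r D
    have h3 := Nat.choose_succ_succ r D
    rcases Nat.lt_or_ge r (D + 2) with hr | hr
    · rw [Nat.choose_eq_zero_of_lt hr] at h ⊢
      rw [mul_zero] at h
      have h4 : mul r (D + 1) = 0 := by omega
      rw [h4]
      simp
    · obtain ⟨s, rfl⟩ : ∃ s, r = D + 2 + s := ⟨r - (D + 2), by omega⟩
      have e1 : D + 2 + s - (D + 2) = s := by omega
      have e2 : D + 2 + s - D = s + 2 := by omega
      rw [e1] at h1
      rw [e2] at h2
      rw [h3]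
      generalize (D + 2 + s).choose D = x at *
      generalize (D + 2 + s).choose (D + 1) = y at *
      generalize (D + 2 + s).choose (D + 2) = w at *
      generalize (D + 2 + s).choose (D + 3) = t at *
      generalize mul (D + 2 + s) (D + 1) = M at *
      have h1' : t * (D + 3) = w * s := h1
      have h5 : M * (D + 3) + w * s * x = y * w * (D + 3) := by
        rw [← h1']
        linear_combination (D + 3) * h
      have h6 : s * x + 2 * x = y * (D + 1) := by
        rw [h2]; ring
      zify at *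
      linear_combination h5 - w * h6

end Pool.Agent.LibMul34
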