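import Mathlib

/-!
Pairs of subsets of `Fin r`, operators on the functions of them, and minors: definitions.
-/

open scoped Classical

namespace Pool.Agent.LibMul34

/-- pairs of subsets -/
abbrev Pr (r : ℕ) : Type := Finset (Fin r) × Finset (Fin r)

/-- add or remove the element `x` -/
def tg {r : ℕ} (x : Fin r) (J : Finset (Fin r)) : Finset (Fin r) :=
  if x ∈ J then J.erase x else insert x J

/-- the sign of `x` with respect to `J` -/
def sg {r : ℕ} (x : Fin r) (J : Finset (Fin r)) : ℚ := (-1) ^ (J.filter (· < x)).card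

/-- the raising operator at `x` -/
noncomputable def ex {r : ℕ} (x : Fin r) : (Pr r → ℚ) →ₗ[ℚ] (Pr r → ℚ) where
  toFun f p := if x ∈ p.1 ∧ x ∉ p.2 then sg x p.1 * sg x p.2 * f (tg x p.1, tg x p.2) else 0
  map_add' f g := by
    funext p
    simp only [Pi.add_apply]
    split_ifs
    · ring
    · simp
  map_smul' c f := by
    funext p
    simp only [Pi.smul_apply, smul_eq_mul, RingHom.id_apply]
    split_ifs
    · ring
    · simp

/-- the lowering operator at `x` -/
noncomputable def fx {r : ℕ} (x : Fin r) : (Pr r → ℚ) →ₗ[ℚ] (Pr r → ℚ) where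
  toFun f p := if x ∉ p.1 ∧ x ∈ p.2 then sg x p.1 * sg x p.2 * f (tg x p.1, tg x p.2) else 0
  map_add' f g := by
    funext p
    simp only [Pi.add_apply]
    split_ifs
    · ring
    · simp
  map_smul' c f := by
    funext p
    simp only [Pi.smul_apply, smul_eq_mul, RingHom.id_apply]
    split_ifs
    · ring
    · simp

/-- the raising operator -/
noncomputable def opE (r : ℕ) : (Pr r → ℚ) →ₗ[ℚ] (Pr r → ℚ) := ∑ x, ex x

/-- the lowering operator -/
noncomputable def opF (r : ℕ) : (Pr r → ℚ) →ₗ[ℚ] (Pr r → ℚ) := ∑ x, fx x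

/-- the functions supported on the pairs of subsets with `a` and `b` elements -/
def Wt (r a b : ℕ) : Submodule ℚ (Pr r → ℚ) where
  carrier := {f | ∀ p, f p ≠ 0 → p.1.card = a ∧ p.2.card = b}
  add_mem' := by
    intro f g hf hg p hp
    by_cases h : f p = 0
    · exact hg p (by intro h'; exact hp (by rw [Pi.add_apply, h, h', add_zero]))
    · exact hf p h
  zero_mem' := by
    intro p hp
    exact absurd rfl hp
  smul_mem' := by
    intro c f hf p hp
    exact hf p (by intro h; exact hp (by rw [Pi.smul_apply, h, smul_zero]))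

/-- the minor of the vectors `n 0, ..., n (a - 1)` with the rows in `J` -/
noncomputable def mn {r a : ℕ} (J : Finset (Fin r)) (n : Fin a → Fin r → ℚ) : ℚ :=
  if h : J.card = a then (Matrix.of fun i j => n j (J.orderEmbOfFin h i)).det else 0

/-- the bilinear combination of minors with the coefficients `z` -/
noncomputable def Gz {r a b : ℕ} (z : Pr r → ℚ) (n : Fin a → Fin r → ℚ) (m : Fin b → Fin r → ℚ) :
    ℚ :=
  ∑ p, z p * mn p.1 n * mn p.2 m

end Pool.Agent.LibMul34
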