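import Pool.Agent.LibMul34.Defs

/-!
Laplace expansions of minors.
-/

open scoped Classical

namespace Pool.Agent.LibMul34

variable {r a b : ℕ}

theorem emb_erase {J : Finset (Fin r)} (h : J.card = a + 1) (c : Fin (a + 1))
    (h' : (J.erase (J.orderEmbOfFin h c)).card = a) (i : Fin a) :
    (J.erase (J.orderEmbOfFin h c)).orderEmbOfFin h' i = J.orderEmbOfFin h (c.succAbove i) := by
  have h1 := Finset.orderEmbOfFin_unique (s := J.erase (J.orderEmbOfFin h c)) h'
    (f := fun i => J.orderEmbOfFin h (c.succAbove i)) (fun i => by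
      refine Finset.mem_erase.2 ⟨?_, Finset.orderEmbOfFin_mem J h _⟩
      intro h2
      exact Fin.succAbove_ne c i ((J.orderEmbOfFin h).injective h2))
    ((J.orderEmbOfFin h).strictMono.comp (Fin.strictMono_succAbove c))
  exact (congrFun h1 i).symm

theorem card_lt {J : Finset (Fin r)} (h : J.card = a) (c : Fin a) :
    (J.filter (· < J.orderEmbOfFin h c)).card = c := by
  have h1 : J.filter (· < J.orderEmbOfFin h c) =
      (Finset.univ.filter (· < c)).map (J.orderEmbOfFin h).toEmbedding := by
    ext y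
    simp only [Finset.mem_filter, Finset.mem_map, Finset.mem_univ, true_and,
      RelEmbedding.coe_toEmbedding]
    constructor
    · rintro ⟨hy, hlt⟩
      have h2 : y ∈ Set.range (J.orderEmbOfFin h) := by
        rw [Finset.range_orderEmbOfFin]
        exact hy
      obtain ⟨i, rfl⟩ := h2
      exact ⟨i, (J.orderEmbOfFin h).lt_iff_lt.1 hlt, rfl⟩
    · rintro ⟨i, hi, rfl⟩
      exact ⟨Finset.orderEmbOfFin_mem J h i, (J.orderEmbOfFin h).lt_iff_lt.2 hi⟩
  rw [h1, Finset.card_map]
  have h2 : Finset.univ.filter (· < c) = Finset.Iio c := by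
    ext i
    simp
  rw [h2, Fin.card_Iio]

theorem sg_emb {J : Finset (Fin r)} (h : J.card = a) (c : Fin a) :
    sg (J.orderEmbOfFin h c) J = (-1) ^ (c : ℕ) := by
  rw [sg, card_lt]

theorem sg_insert (x : Fin r) (J : Finset (Fin r)) : sg x (insert x J) = sg x J := by
  unfold sg
  congr 2
  ext y
  simp only [Finset.mem_filter, Finset.mem_insert]
  constructor
  · rintro ⟨rfl | h, h2⟩
    · exact absurd h2 (lt_irrefl _)
    · exact ⟨h, h2⟩
  · rintro ⟨h, h2⟩
    exact ⟨Or.inr h, h2⟩

theorem sg_erase (x : Fin r) (J : Finset (Fin r)) : sg x (J.erase x) = sg x J := by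
  unfold sg
  congr 2
  ext y
  simp only [Finset.mem_filter, Finset.mem_erase]
  constructor
  · rintro ⟨⟨-, h⟩, h2⟩
    exact ⟨h, h2⟩
  · rintro ⟨h, h2⟩
    exact ⟨⟨ne_of_lt h2, h⟩, h2⟩

theorem sg_tg (x : Fin r) (J : Finset (Fin r)) : sg x (tg x J) = sg x J := by
  unfold tg
  split_ifs
  · exact sg_erase x J
  · exact sg_insert x J

theorem tg_tg (x : Fin r) (J : Finset (Fin r)) : tg x (tg x J) = J := by
  unfold tg
  by_cases h : x ∈ J
  · rw [if_pos h, if_neg (Finset.notMem_erase x J), Finset.insert_erase h]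
  · rw [if_neg h, if_pos (Finset.mem_insert_self x J), Finset.erase_insert h]

/-- the involution -/
def tau (x : Fin r) : Pr r ≃ Pr r where
  toFun p := (tg x p.1, tg x p.2)
  invFun p := (tg x p.1, tg x p.2)
  left_inv p := by simp [tg_tg]
  right_inv p := by simp [tg_tg]

theorem mem_tg_self (x : Fin r) (J : Finset (Fin r)) : x ∈ tg x J ↔ x ∉ J := by
  unfold tg
  split_ifs with h
  · simp [h]
  · simp [h]

theorem sum_emb {J : Finset (Fin r)} (h : J.card = a) (g : Fin r → ℚ) :
    ∑ x ∈ J, g x = ∑ i, g (J.orderEmbOfFin h i) := by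
  conv_lhs => rw [← Finset.map_orderEmbOfFin_univ J h]
  rw [Finset.sum_map]
  rfl

theorem mn_of {J : Finset (Fin r)} (h : J.card = a) (n : Fin a → Fin r → ℚ) :
    mn J n = (Matrix.of fun i j => n j (J.orderEmbOfFin h i)).det := dif_pos h

theorem mn_zero {J : Finset (Fin r)} (h : J.card ≠ a) (n : Fin a → Fin r → ℚ) :
    mn J n = 0 := dif_neg h

/-- expansion along a column -/
theorem mn_col (J : Finset (Fin r)) (m : Fin (a + 1) → Fin r → ℚ) (c : Fin (a + 1)) :
    mn J m = (-1) ^ (c : ℕ) * ∑ x ∈ J, sg x J * m c x * mn (J.erase x) (m ∘ c.succAbove) := by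
  by_cases h : J.card = a + 1
  · rw [sum_emb h, mn_of h, Matrix.det_succ_column _ c, Finset.mul_sum]
    refine Finset.sum_congr rfl fun i _ => ?_
    have h' : (J.erase (J.orderEmbOfFin h i)).card = a := by
      rw [Finset.card_erase_of_mem (Finset.orderEmbOfFin_mem J h i), h]
      rfl
    rw [sg_emb, mn_of h', pow_add]
    have h2 : (Matrix.of fun i j => m j (J.orderEmbOfFin h i)).submatrix i.succAbove c.succAbove =
        Matrix.of fun i' j => (m ∘ c.succAbove) j
          ((J.erase (J.orderEmbOfFin h i)).orderEmbOfFin h' i') := by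
      ext i' j
      simp only [Matrix.submatrix_apply, Matrix.of_apply, Function.comp_apply]
      rw [emb_erase]
    rw [h2, Matrix.of_apply]
    ring
  · rw [mn_zero h]
    have h1 : ∑ x ∈ J, sg x J * m c x * mn (J.erase x) (m ∘ c.succAbove) = 0 := by
      refine Finset.sum_eq_zero fun x hx => ?_
      rw [mn_zero, mul_zero]
      rw [Finset.card_erase_of_mem hx]
      have := Finset.card_pos.2 ⟨x, hx⟩
      omega
    rw [h1, mul_zero]

theorem mn_eq_zero (J : Finset (Fin r)) (n : Fin a → Fin r → ℚ) {i j : Fin a} (hij : i ≠ j)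
    (h : n i = n j) : mn J n = 0 := by
  by_cases hJ : J.card = a
  · rw [mn_of hJ]
    exact Matrix.det_zero_of_column_eq hij fun c => by simp [Matrix.of_apply, h]
  · exact mn_zero hJ n

theorem mn_swap (J : Finset (Fin r)) (n : Fin a → Fin r → ℚ) {i j : Fin a} (hij : i ≠ j) :
    mn J (n ∘ Equiv.swap i j) = -mn J n := by
  by_cases hJ : J.card = a
  · rw [mn_of hJ, mn_of hJ]
    have h1 : (Matrix.of fun i' j' => (n ∘ Equiv.swap i j) j' (J.orderEmbOfFin hJ i')) =
        (Matrix.of fun i' j' => n j' (J.orderEmbOfFin hJ i')).submatrix id (Equiv.swap i j) := rfl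
    rw [h1, Matrix.det_permute', Equiv.Perm.sign_swap hij]
    simp
  · rw [mn_zero hJ, mn_zero hJ, neg_zero]

/-- expansion along a row -/
theorem mn_row (J : Finset (Fin r)) (u : Fin (a + 1) → Fin r → ℚ) (x : Fin r) :
    ∑ i : Fin (a + 1), (-1) ^ (i : ℕ) * u i x * mn J (u ∘ i.succAbove) =
      if x ∈ J then 0 else sg x J * mn (insert x J) u := by
  by_cases hJ : J.card = a
  · by_cases hx : x ∈ J
    · rw [if_pos hx]
      let A : Matrix (Fin (a + 1)) (Fin (a + 1)) ℚ :=
        Matrix.of fun i j => u j ((Fin.cons x (J.orderEmbOfFin hJ) : Fin (a + 1) → Fin r) i)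
      have h1 : x ∈ Set.range (J.orderEmbOfFin hJ) := by
        rw [Finset.range_orderEmbOfFin]
        exact hx
      obtain ⟨i₀, hi₀⟩ := h1
      have h2 : A.det = 0 := by
        refine Matrix.det_zero_of_row_eq (i := 0) (j := i₀.succ) (Fin.succ_ne_zero i₀).symm ?_
        funext j
        simp only [A, Matrix.of_apply, Fin.cons_zero, Fin.cons_succ, hi₀]
      rw [← h2, Matrix.det_succ_row_zero]
      refine Finset.sum_congr rfl fun j _ => ?_
      rw [mn_of hJ]
      rfl
    · rw [if_neg hx]
      have hK : (insert x J).card = a + 1 := by rw [Finset.card_insert_of_notMem hx, hJ]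
      have h1 : x ∈ Set.range ((insert x J).orderEmbOfFin hK) := by
        rw [Finset.range_orderEmbOfFin]
        exact Finset.mem_coe.2 (Finset.mem_insert_self x J)
      obtain ⟨c, hc⟩ := h1
      have h3 : sg x J = (-1) ^ (c : ℕ) := by
        rw [← sg_insert, ← sg_emb hK c, hc]
      have h4 : ∀ i, (insert x J).orderEmbOfFin hK (c.succAbove i) = J.orderEmbOfFin hJ i := by
        intro i
        have h5 : (insert x J).erase ((insert x J).orderEmbOfFin hK c) = J := by
          rw [hc, Finset.erase_insert hx]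
        have h6 : ((insert x J).erase ((insert x J).orderEmbOfFin hK c)).card = a := by
          rw [h5, hJ]
        rw [← emb_erase hK c h6 i]
        congr 1
        simp only [h5]
      rw [mn_of hK, Matrix.det_succ_row _ c, h3, Finset.mul_sum]
      refine Finset.sum_congr rfl fun j _ => ?_
      rw [mn_of hJ, Matrix.of_apply, hc, pow_add]
      have h7 : (Matrix.of fun i j => u j ((insert x J).orderEmbOfFin hK i)).submatrix
          c.succAbove j.succAbove =
          Matrix.of fun i' j' => (u ∘ j.succAbove) j' (J.orderEmbOfFin hJ i') := by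
        ext i' j'
        simp only [Matrix.submatrix_apply, Matrix.of_apply, Function.comp_apply, h4]
      rw [h7]
      have h8 : ((-1 : ℚ) ^ (c : ℕ)) * (-1) ^ (c : ℕ) = 1 := by
        rw [← mul_pow]
        norm_num
      linear_combination (-(-1) ^ (j : ℕ) * u j x *
        (Matrix.of fun i' j' => (u ∘ j.succAbove) j' (J.orderEmbOfFin hJ i')).det) * h8
  · have h1 : ∀ i : Fin (a + 1), mn J (u ∘ i.succAbove) = 0 := fun i => mn_zero hJ _
    simp only [h1, mul_zero, Finset.sum_const_zero]
    split_ifs with hx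
    · rfl
    · rw [mn_zero, mul_zero]
      rw [Finset.card_insert_of_notMem hx]
      omega

theorem mn_upd (J : Finset (Fin r)) (n : Fin a → Fin r → ℚ) (v : Fin r → ℚ) (x : Fin r) :
    ∑ j, n j x * mn J (Function.update n j v) =
      v x * mn J n - if x ∈ J then 0 else sg x J * mn (insert x J)
        (Fin.cons v n : Fin (a + 1) → Fin r → ℚ) := by
  have h1 := mn_row J (Fin.cons v n : Fin (a + 1) → Fin r → ℚ) x
  rw [← h1, Fin.sum_univ_succ]
  have h2 : (Fin.cons v n : Fin (a + 1) → Fin r → ℚ) ∘ (0 : Fin (a + 1)).succAbove = n := by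
    funext i
    simp
  rw [h2]
  simp only [Fin.val_zero, pow_zero, one_mul, Fin.cons_zero, Fin.val_succ, Fin.cons_succ]
  have h3 : ∀ j : Fin a, mn J ((Fin.cons v n : Fin (a + 1) → Fin r → ℚ) ∘ j.succ.succAbove) =
      (-1) ^ (j : ℕ) * mn J (Function.update n j v) := by
    intro j
    obtain ⟨a', rfl⟩ : ∃ a', a = a' + 1 := ⟨a - 1, by have := j.pos; omega⟩
    rw [mn_col J _ 0, mn_col J _ j]
    have h4 : ((Fin.cons v n : Fin (a' + 1 + 1) → Fin r → ℚ) ∘ j.succ.succAbove) ∘
        (0 : Fin (a' + 1)).succAbove = n ∘ j.succAbove := by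
      funext i
      simp only [Function.comp_apply, Fin.succAbove_zero, Fin.succ_succAbove_succ, Fin.cons_succ]
    have h5 : Function.update n j v ∘ j.succAbove = n ∘ j.succAbove := by
      funext i
      simp only [Function.comp_apply]
      rw [Function.update_of_ne (Fin.succAbove_ne j i)]
    have h6 : ((Fin.cons v n : Fin (a' + 1 + 1) → Fin r → ℚ) ∘ j.succ.succAbove) 0 = v := by
      simp
    rw [h4, h5, h6, Function.update_self, ← mul_assoc, ← mul_pow]
    norm_num
  simp only [h3]
  rw [sub_add_eq_sub_sub, sub_self, zero_sub, ← Finset.sum_neg_distrib]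
  refine Finset.sum_congr rfl fun j _ => ?_
  have h8 : ((-1 : ℚ) ^ (j : ℕ)) * (-1) ^ (j : ℕ) = 1 := by
    rw [← mul_pow]
    norm_num
  rw [pow_succ]
  linear_combination (-n j x * mn J (Function.update n j v)) * h8

end Pool.Agent.LibMul34
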