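import Pool.Agent.LibMul34.Min

/-!
The kernel of the raising operator: exchange identity and polarisation.
-/

open scoped Classical

namespace Pool.Agent.LibMul34

variable {r a b : ℕ}

theorem tg_mem {x : Fin r} {J : Finset (Fin r)} (h : x ∈ J) : tg x J = J.erase x := if_pos h

theorem tg_notMem {x : Fin r} {J : Finset (Fin r)} (h : x ∉ J) : tg x J = insert x J := if_neg h

theorem opE_apply (z : Pr r → ℚ) (p : Pr r) : opE r z p = ∑ x, if x ∈ p.1 ∧ x ∉ p.2 then
    sg x p.1 * sg x p.2 * z (tg x p.1, tg x p.2) else 0 := by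
  unfold opE
  rw [LinearMap.sum_apply, Finset.sum_apply]
  rfl

theorem opF_apply (z : Pr r → ℚ) (p : Pr r) : opF r z p = ∑ x, if x ∉ p.1 ∧ x ∈ p.2 then
    sg x p.1 * sg x p.2 * z (tg x p.1, tg x p.2) else 0 := by
  unfold opF
  rw [LinearMap.sum_apply, Finset.sum_apply]
  rfl

theorem Gz_opE (z : Pr r → ℚ) (u : Fin a → Fin r → ℚ) (m : Fin b → Fin r → ℚ) :
    Gz (opE r z) u m = ∑ p, ∑ x, if x ∉ p.1 ∧ x ∈ p.2 then
      z p * (sg x p.1 * mn (insert x p.1) u) * (sg x p.2 * mn (p.2.erase x) m) else 0 := by
  unfold Gz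
  simp only [opE_apply, Finset.sum_mul]
  rw [Finset.sum_comm]
  conv_rhs => rw [Finset.sum_comm]
  refine Finset.sum_congr rfl fun x _ => ?_
  rw [← (tau x).sum_comp]
  refine Finset.sum_congr rfl fun p _ => ?_
  change (if x ∈ tg x p.1 ∧ x ∉ tg x p.2 then sg x (tg x p.1) * sg x (tg x p.2) *
    z (tg x (tg x p.1), tg x (tg x p.2)) else 0) * mn (tg x p.1) u * mn (tg x p.2) m = _
  simp only [mem_tg_self, tg_tg, not_not, sg_tg]
  split_ifs with h
  · rw [tg_notMem h.1, tg_mem h.2]
    ring
  · simp

theorem Gz_col (z : Pr r → ℚ) (n : Fin a → Fin r → ℚ) (m : Fin (b + 1) → Fin r → ℚ)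
    (c : Fin (b + 1)) : Gz z n m = (-1) ^ (c : ℕ) * ∑ p : Pr r, ∑ x ∈ p.2,
      z p * (m c x * mn p.1 n) * (sg x p.2 * mn (p.2.erase x) (m ∘ c.succAbove)) := by
  unfold Gz
  rw [Finset.mul_sum]
  refine Finset.sum_congr rfl fun p _ => ?_
  rw [mn_col p.2 m c, Finset.mul_sum, Finset.mul_sum, Finset.mul_sum]
  refine Finset.sum_congr rfl fun x _ => ?_
  ring

/-- the exchange identity -/
theorem Gz_exch (z : Pr r → ℚ) (hz : opE r z = 0) (n : Fin a → Fin r → ℚ)
    (m : Fin (b + 1) → Fin r → ℚ) (c : Fin (b + 1)) :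
    ∑ j, Gz z (Function.update n j (m c)) (Function.update m c (n j)) = Gz z n m := by
  have h1 : ∀ j, Gz z (Function.update n j (m c)) (Function.update m c (n j)) =
      (-1) ^ (c : ℕ) * ∑ p : Pr r, ∑ x ∈ p.2, z p * (n j x * mn p.1 (Function.update n j (m c))) *
        (sg x p.2 * mn (p.2.erase x) (m ∘ c.succAbove)) := by
    intro j
    rw [Gz_col z _ _ c, Function.update_self]
    have h2 : Function.update m c (n j) ∘ c.succAbove = m ∘ c.succAbove := by
      funext i
      simp only [Function.comp_apply]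
      rw [Function.update_of_ne (Fin.succAbove_ne c i)]
    rw [h2]
  simp only [h1]
  rw [← Finset.mul_sum, Finset.sum_comm]
  have h3 : ∀ p : Pr r, (∑ j, ∑ x ∈ p.2, z p * (n j x * mn p.1 (Function.update n j (m c))) *
        (sg x p.2 * mn (p.2.erase x) (m ∘ c.succAbove))) =
      ∑ x ∈ p.2, z p * (m c x * mn p.1 n) * (sg x p.2 * mn (p.2.erase x) (m ∘ c.succAbove)) -
      ∑ x, if x ∉ p.1 ∧ x ∈ p.2 then z p * (sg x p.1 * mn (insert x p.1)
        (Fin.cons (m c) n : Fin (a + 1) → Fin r → ℚ)) *
          (sg x p.2 * mn (p.2.erase x) (m ∘ c.succAbove)) else 0 := by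
    intro p
    rw [Finset.sum_comm]
    have h4 : ∑ x, (if x ∉ p.1 ∧ x ∈ p.2 then z p * (sg x p.1 * mn (insert x p.1)
        (Fin.cons (m c) n : Fin (a + 1) → Fin r → ℚ)) *
          (sg x p.2 * mn (p.2.erase x) (m ∘ c.succAbove)) else 0) =
        ∑ x ∈ p.2, z p * (if x ∈ p.1 then 0 else sg x p.1 * mn (insert x p.1)
        (Fin.cons (m c) n : Fin (a + 1) → Fin r → ℚ)) *
          (sg x p.2 * mn (p.2.erase x) (m ∘ c.succAbove)) := by
      rw [← Finset.sum_filter_add_sum_filter_not Finset.univ (· ∈ p.2)]
      have h5 : ∑ x with ¬ x ∈ p.2, (if x ∉ p.1 ∧ x ∈ p.2 then z p * (sg x p.1 *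
          mn (insert x p.1) (Fin.cons (m c) n : Fin (a + 1) → Fin r → ℚ)) *
          (sg x p.2 * mn (p.2.erase x) (m ∘ c.succAbove)) else 0) = 0 := by
        refine Finset.sum_eq_zero fun x hx => ?_
        rw [if_neg]
        intro h
        exact (Finset.mem_filter.1 hx).2 h.2
      rw [h5, add_zero, Finset.filter_mem_eq_inter, Finset.univ_inter]
      refine Finset.sum_congr rfl fun x hx => ?_
      by_cases h : x ∈ p.1
      · simp [h]
      · simp [h, hx]
    rw [h4, ← Finset.sum_sub_distrib]
    refine Finset.sum_congr rfl fun x _ => ?_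
    rw [← Finset.sum_mul, ← Finset.mul_sum, mn_upd]
    ring
  simp only [h3]
  rw [Finset.sum_sub_distrib, ← Gz_opE, hz, mul_sub, ← Gz_col]
  have h6 : Gz (0 : Pr r → ℚ) (Fin.cons (m c) n : Fin (a + 1) → Fin r → ℚ)
      (m ∘ c.succAbove) = 0 := by
    unfold Gz
    refine Finset.sum_eq_zero fun p _ => ?_
    rw [Pi.zero_apply]
    ring
  rw [h6, mul_zero, sub_zero]

/-- the products of minors with the same vectors are in the kernel -/
theorem opE_T (n : Fin a → Fin r → ℚ) (m : Fin b → Fin r → ℚ) (h : ∀ c, ∃ j, m c = n j) :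
    opE r (fun p => mn p.1 n * mn p.2 m) = 0 := by
  funext p
  rw [opE_apply, Pi.zero_apply]
  match b, m, h with
  | 0, m, h =>
    refine Finset.sum_eq_zero fun x _ => ?_
    split_ifs with hx
    · have h1 : mn (tg x p.2) m = 0 := by
        apply mn_zero
        rw [tg_notMem hx.2, Finset.card_insert_of_notMem hx.2]
        omega
      rw [h1, mul_zero, mul_zero]
    · rfl
  | b + 1, m, h =>
    have h1 : ∑ x, (if x ∈ p.1 ∧ x ∉ p.2 then sg x p.1 * sg x p.2 *
        (mn (tg x p.1) n * mn (tg x p.2) m) else 0) =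
        ∑ x ∈ p.1, sg x p.1 * mn (p.1.erase x) n *
          ∑ c : Fin (b + 1), (-1) ^ (c : ℕ) * m c x * mn p.2 (m ∘ c.succAbove) := by
      rw [← Finset.sum_filter_add_sum_filter_not Finset.univ (· ∈ p.1)]
      have h5 : ∑ x with ¬ x ∈ p.1, (if x ∈ p.1 ∧ x ∉ p.2 then sg x p.1 * sg x p.2 *
          (mn (tg x p.1) n * mn (tg x p.2) m) else 0) = 0 := by
        refine Finset.sum_eq_zero fun x hx => ?_
        rw [if_neg]
        intro h
        exact (Finset.mem_filter.1 hx).2 h.1
      rw [h5, add_zero, Finset.filter_mem_eq_inter, Finset.univ_inter]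
      refine Finset.sum_congr rfl fun x hx => ?_
      rw [mn_row]
      by_cases h : x ∈ p.2
      · simp [h]
      · rw [if_pos ⟨hx, h⟩, if_neg h, tg_mem hx, tg_notMem h]
        ring
    rw [h1]
    simp only [Finset.mul_sum]
    rw [Finset.sum_comm]
    refine Finset.sum_eq_zero fun c _ => ?_
    obtain ⟨j, hj⟩ := h c
    have h2 := mn_col p.1 (Fin.cons (m c) n : Fin (a + 1) → Fin r → ℚ) 0
    have h3 : mn p.1 (Fin.cons (m c) n : Fin (a + 1) → Fin r → ℚ) = 0 := by
      refine mn_eq_zero p.1 _ (i := 0) (j := j.succ) (Fin.succ_ne_zero j).symm ?_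
      rw [Fin.cons_zero, Fin.cons_succ, hj]
    have h4 : (Fin.cons (m c) n : Fin (a + 1) → Fin r → ℚ) ∘ (0 : Fin (a + 1)).succAbove = n := by
      funext i
      simp
    rw [h3, h4] at h2
    simp only [Fin.val_zero, pow_zero, one_mul, Fin.cons_zero] at h2
    have h5 : ∑ x ∈ p.1, sg x p.1 * mn (p.1.erase x) n *
        ((-1) ^ (c : ℕ) * m c x * mn p.2 (m ∘ c.succAbove)) =
        (-1) ^ (c : ℕ) * mn p.2 (m ∘ c.succAbove) *
          ∑ x ∈ p.1, sg x p.1 * m c x * mn (p.1.erase x) n := by
      rw [Finset.mul_sum]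
      refine Finset.sum_congr rfl fun x _ => ?_
      ring
    rw [h5, ← h2, mul_zero]

theorem mn_update_add (J : Finset (Fin r)) (n : Fin a → Fin r → ℚ) (j : Fin a)
    (y y' : Fin r → ℚ) : mn J (Function.update n j (y + y')) =
      mn J (Function.update n j y) + mn J (Function.update n j y') := by
  obtain ⟨a', rfl⟩ : ∃ a', a = a' + 1 := ⟨a - 1, by have := j.pos; omega⟩
  have h5 : ∀ v : Fin r → ℚ, Function.update n j v ∘ j.succAbove = n ∘ j.succAbove := by
    intro v
    funext i
    simp only [Function.comp_apply]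
    rw [Function.update_of_ne (Fin.succAbove_ne j i)]
  rw [mn_col J _ j, mn_col J _ j, mn_col J _ j, h5, h5, h5, Function.update_self,
    Function.update_self, Function.update_self, ← mul_add, ← Finset.sum_add_distrib]
  congr 1
  refine Finset.sum_congr rfl fun x _ => ?_
  rw [Pi.add_apply]
  ring

theorem Gz_add_left (z : Pr r → ℚ) (n : Fin a → Fin r → ℚ) (m : Fin b → Fin r → ℚ) (j : Fin a)
    (y y' : Fin r → ℚ) : Gz z (Function.update n j (y + y')) m =
      Gz z (Function.update n j y) m + Gz z (Function.update n j y') m := by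
  unfold Gz
  rw [← Finset.sum_add_distrib]
  refine Finset.sum_congr rfl fun p _ => ?_
  rw [mn_update_add]
  ring

theorem Gz_add_right (z : Pr r → ℚ) (n : Fin a → Fin r → ℚ) (m : Fin b → Fin r → ℚ) (j : Fin b)
    (y y' : Fin r → ℚ) : Gz z n (Function.update m j (y + y')) =
      Gz z n (Function.update m j y) + Gz z n (Function.update m j y') := by
  unfold Gz
  rw [← Finset.sum_add_distrib]
  refine Finset.sum_congr rfl fun p _ => ?_
  rw [mn_update_add]
  ring

theorem Gz_swap (z : Pr r → ℚ) (n : Fin a → Fin r → ℚ) (m : Fin b → Fin r → ℚ) {i j : Fin a}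
    (h : i ≠ j) : Gz z (n ∘ Equiv.swap i j) m = -Gz z n m := by
  unfold Gz
  rw [← Finset.sum_neg_distrib]
  refine Finset.sum_congr rfl fun p _ => ?_
  rw [mn_swap _ _ h]
  ring

theorem Gz_right_eq (z : Pr r → ℚ) (n : Fin a → Fin r → ℚ) (m : Fin b → Fin r → ℚ) {i j : Fin b}
    (h : i ≠ j) (hm : m i = m j) : Gz z n m = 0 := by
  unfold Gz
  refine Finset.sum_eq_zero fun p _ => ?_
  rw [mn_eq_zero p.2 m h hm, mul_zero]

/-- a form which vanishes on the diagonal is alternating -/
theorem polar (z : Pr r → ℚ) (n : Fin a → Fin r → ℚ) (m : Fin b → Fin r → ℚ) (j : Fin a)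
    (c : Fin b) (h : ∀ y, Gz z (Function.update n j y) (Function.update m c y) = 0)
    (y y' : Fin r → ℚ) : Gz z (Function.update n j y) (Function.update m c y') =
      -Gz z (Function.update n j y') (Function.update m c y) := by
  have h1 := h (y + y')
  rw [Gz_add_left, Gz_add_right, Gz_add_right, h, h, zero_add, add_zero] at h1
  exact eq_neg_of_add_eq_zero_left h1

/-- **polarisation** -/
theorem pol {D : ℕ} (z : Pr r → ℚ) (hz : opE r z = 0)
    (h0 : ∀ n : Fin (D + 1) → Fin r → ℚ, Gz z n (fun c : Fin D => n c.castSucc) = 0)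
    (S : Finset (Fin D)) : ∀ (n : Fin (D + 1) → Fin r → ℚ) (m : Fin D → Fin r → ℚ),
      (∀ c, c ∉ S → m c = n c.castSucc) → Gz z n m = 0 := by
  induction S using Finset.induction_on with
  | empty =>
    intro n m hm
    have h1 : m = fun c => n c.castSucc := funext fun c => hm c (Finset.notMem_empty c)
    rw [h1]
    exact h0 n
  | insert c₀ S hc₀ ih =>
    intro n m hm
    obtain ⟨D', rfl⟩ : ∃ D', D = D' + 1 := ⟨D - 1, by have := c₀.pos; omega⟩
    have hex := Gz_exch z hz n m c₀
    have hne : ∀ c, c ∉ insert c₀ S → c ≠ c₀ ∧ c ∉ S := by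
      intro c hc
      rw [Finset.mem_insert, not_or] at hc
      exact hc
    have key : ∀ j, Gz z (Function.update n j (m c₀)) (Function.update m c₀ (n j)) =
        if ∃ c, c ∉ insert c₀ S ∧ j = c.castSucc then 0 else -Gz z n m := by
      intro j
      split_ifs with hj
      · obtain ⟨c, hc, rfl⟩ := hj
        refine Gz_right_eq z _ _ (i := c₀) (j := c) (hne c hc).1.symm ?_
        rw [Function.update_self, Function.update_of_ne (hne c hc).1, hm c hc]
      · by_cases hj0 : j = c₀.castSucc
        · subst hj0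
          have h1 := polar z n m c₀.castSucc c₀ (fun y => by
            apply ih
            intro c hc
            by_cases hcc : c = c₀
            · subst hcc
              rw [Function.update_self, Function.update_self]
            · rw [Function.update_of_ne hcc, Function.update_of_ne
                (fun h => hcc (Fin.castSucc_injective _ h))]
              exact hm c (by rw [Finset.mem_insert, not_or]; exact ⟨hcc, hc⟩))
            (m c₀) (n c₀.castSucc)
          rw [h1, Function.update_eq_self, Function.update_eq_self]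
        · let n' : Fin (D' + 1 + 1) → Fin r → ℚ := n ∘ Equiv.swap j c₀.castSucc
          have h1 := polar z n' m c₀.castSucc c₀ (fun y => by
            apply ih
            intro c hc
            by_cases hcc : c = c₀
            · subst hcc
              rw [Function.update_self, Function.update_self]
            · have h2 : c.castSucc ≠ c₀.castSucc := fun h => hcc (Fin.castSucc_injective _ h)
              have hc' : c ∉ insert c₀ S := by
                rw [Finset.mem_insert, not_or]
                exact ⟨hcc, hc⟩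
              have h3 : c.castSucc ≠ j := fun h => hj ⟨c, hc', h.symm⟩
              rw [Function.update_of_ne hcc, Function.update_of_ne h2, hm c hc']
              change n c.castSucc = n (Equiv.swap j c₀.castSucc c.castSucc)
              rw [Equiv.swap_apply_of_ne_of_ne h3 h2])
            (m c₀) (n j)
          have h2 : Function.update n' c₀.castSucc (n j) = n' := by
            have h3 : n' c₀.castSucc = n j := by
              change n (Equiv.swap j c₀.castSucc c₀.castSucc) = n j
              rw [Equiv.swap_apply_right]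
            rw [← h3, Function.update_eq_self]
          have h4 : Function.update n' c₀.castSucc (m c₀) =
              Function.update n j (m c₀) ∘ Equiv.swap j c₀.castSucc := by
            funext i
            by_cases hi : i = c₀.castSucc
            · subst hi
              rw [Function.update_self, Function.comp_apply, Equiv.swap_apply_right,
                Function.update_self]
            · rw [Function.update_of_ne hi, Function.comp_apply]
              by_cases hi' : i = j
              · subst hi'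
                rw [Equiv.swap_apply_left, Function.update_of_ne (fun h => hi h.symm)]
                change n (Equiv.swap i c₀.castSucc i) = _
                rw [Equiv.swap_apply_left]
              · rw [Equiv.swap_apply_of_ne_of_ne hi' hi, Function.update_of_ne hi']
                change n (Equiv.swap j c₀.castSucc i) = _
                rw [Equiv.swap_apply_of_ne_of_ne hi' hi]
          rw [h2, h4, Gz_swap z _ _ hj0, Gz_swap z _ _ hj0, Function.update_eq_self] at h1
          linarith
    simp only [key] at hex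
    rw [Finset.sum_ite, Finset.sum_const_zero, zero_add, Finset.sum_const, nsmul_eq_mul] at hex
    have h5 : ((Finset.univ.filter fun j : Fin (D' + 1 + 1) =>
        ¬ ∃ c, c ∉ insert c₀ S ∧ j = c.castSucc).card + 1 : ℚ) * Gz z n m = 0 := by
      linarith
    rcases mul_eq_zero.1 h5 with h6 | h6
    · exfalso
      have h7 : (0 : ℚ) ≤ ((Finset.univ.filter fun j : Fin (D' + 1 + 1) =>
        ¬ ∃ c, c ∉ insert c₀ S ∧ j = c.castSucc).card : ℚ) := Nat.cast_nonneg _
      linarith
    · exact h6

/-- the minors of unit vectors -/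
theorem mn_single {J : Finset (Fin r)} (h : J.card = a) (J' : Finset (Fin r)) :
    mn J' (fun j : Fin a => (Pi.single (J.orderEmbOfFin h j) 1 : Fin r → ℚ)) =
      if J' = J then 1 else 0 := by
  split_ifs with hJ
  · subst hJ
    rw [mn_of h]
    have h1 : (Matrix.of fun i j => (Pi.single (J'.orderEmbOfFin h j) 1 : Fin r → ℚ)
        (J'.orderEmbOfFin h i)) = (1 : Matrix (Fin a) (Fin a) ℚ) := by
      ext i j
      rw [Matrix.of_apply, Pi.single_apply, Matrix.one_apply]
      simp only [(J'.orderEmbOfFin h).injective.eq_iff]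
    rw [h1, Matrix.det_one]
  · by_cases h' : J'.card = a
    · rw [mn_of h']
      have h1 : ¬ J' ⊆ J := fun h2 => hJ (Finset.eq_of_subset_of_card_le h2 (by rw [h, h']))
      obtain ⟨x, hx, hx'⟩ := Finset.not_subset.1 h1
      have h2 : x ∈ Set.range (J'.orderEmbOfFin h') := by
        rw [Finset.range_orderEmbOfFin]
        exact hx
      obtain ⟨i, rfl⟩ := h2
      apply Matrix.det_eq_zero_of_row_eq_zero i
      intro j
      rw [Matrix.of_apply, Pi.single_apply, if_neg]
      intro h3
      exact hx' (h3 ▸ Finset.orderEmbOfFin_mem J h j)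
    · exact mn_zero h' _

theorem eq_zero_of_Gz {z : Pr r → ℚ} (hz : z ∈ Wt r a b)
    (h : ∀ (n : Fin a → Fin r → ℚ) (m : Fin b → Fin r → ℚ), Gz z n m = 0) : z = 0 := by
  funext p
  by_contra hp
  obtain ⟨h1, h2⟩ := hz p hp
  have h3 := h (fun j => Pi.single (p.1.orderEmbOfFin h1 j) 1)
    (fun j => Pi.single (p.2.orderEmbOfFin h2 j) 1)
  unfold Gz at h3
  rw [Finset.sum_eq_single p] at h3
  · rw [mn_single, mn_single, if_pos rfl, if_pos rfl, mul_one, mul_one] at h3
    exact hp h3
  · intro q _ hq
    rw [mn_single, mn_single]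
    by_cases h4 : q.1 = p.1
    · rw [if_neg (fun h5 => hq (Prod.ext h4 h5)), mul_zero]
    · rw [if_neg h4, mul_zero, zero_mul]
  · intro h4
    exact absurd (Finset.mem_univ p) h4

end Pool.Agent.LibMul34
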